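import Pool.Agent.H14R3.KK.Defs
import Pool.Agent.H14R3.KK.S.ELR
import Pool.Agent.H14R3.KK.S.VARB
import Pool.Agent.H14R3.KK.S.CHIB
import Pool.Agent.H14R3.KK.S.INTEG

/-! Task FINB of project KK (MP_d47e08_pr). -/

set_option autoImplicit false
open MeasureTheory ProbabilityTheory Filter Topology

namespace KK14

theorem FINBx.prob (n r : ℕ) : IsProbabilityMeasure (gau n r) := by
  unfold gau
  infer_instance

theorem FINBx.cs {Ω : Type*} [MeasurableSpace Ω] {μ : Measure Ω} {g h : Ω → ℝ} {V C : ℝ}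
    (hg : Integrable (fun z => g z ^ 2) μ) (hh : Integrable (fun z => h z ^ 2) μ)
    (hgh : Integrable (fun z => g z * h z) μ) (hV0 : 0 ≤ V) (hC0 : 0 < C)
    (hV : ∫ z, g z ^ 2 ∂μ ≤ V) (hC : ∫ z, h z ^ 2 ∂μ ≤ C) :
    ∫ z, g z * h z ∂μ ≤ √(V * C) := by
  by_cases hD : ∫ z, g z * h z ∂μ ≤ 0
  · exact hD.trans (Real.sqrt_nonneg _)
  push Not at hD
  set D := ∫ z, g z * h z ∂μ with hDdef
  have key : ∀ t : ℝ, 2 * t * D ≤ t ^ 2 * V + C := by
    intro t
    have h1 : 2 * t * D ≤ ∫ z, (t ^ 2 * g z ^ 2 + h z ^ 2) ∂μ := by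
      rw [hDdef, ← integral_const_mul]
      refine integral_mono (hgh.const_mul _) ((hg.const_mul _).add hh) fun z => ?_
      have := sq_nonneg (t * g z - h z)
      simp only
      nlinarith
    have h2 : ∫ z, (t ^ 2 * g z ^ 2 + h z ^ 2) ∂μ = t ^ 2 * ∫ z, g z ^ 2 ∂μ + ∫ z, h z ^ 2 ∂μ := by
      rw [integral_add (hg.const_mul _) hh, integral_const_mul]
    rw [h2] at h1
    have h3 := mul_le_mul_of_nonneg_left hV (sq_nonneg t)
    linarith
  refine Real.le_sqrt_of_sq_le ?_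
  rcases hV0.eq_or_lt with h0 | h0
  · exfalso
    have := key (C / D)
    rw [← h0] at this
    have h4 : 2 * (C / D) * D = 2 * C := by field_simp
    rw [h4] at this
    linarith
  · have := key (D / V)
    have h4 : 2 * (D / V) * D = 2 * (D ^ 2 / V) := by ring
    have h5 : (D / V) ^ 2 * V = D ^ 2 / V := by field_simp
    rw [h4, h5] at this
    have h6 : D ^ 2 / V ≤ C := by linarith
    rw [div_le_iff₀ h0] at h6
    linarith

theorem FINB (n l : ℕ) (hn : 1 ≤ n) (hl : l ≤ n) (lam : ℝ) (h : n * lam ^ 2 < 1) :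
    Elm n 2 l lam ≤ Elm n 2 l 0 + √(16 * (l : ℝ) ^ 2 * √n * (1 / √(1 - n * lam ^ 2))) := by
  haveI := FINBx.prob n 2
  obtain ⟨i1, i2, i3, i4⟩ := CHIB n lam h
  obtain ⟨hc, hi, hp⟩ := INTEG n 2 l 0
  have hv := VARB n l hn hl
  set m := Elm n 2 l 0 with hm
  set f : (Sub n 2 → ℝ) → ℝ := fun Z => lmax (kik n 2 l 0 Z) with hf
  have hf2 : Integrable (fun Z => (f Z - m) ^ 2) (gau n 2) := by
    have h1 : Integrable (fun Z => f Z ^ 2) (gau n 2) := by
      simpa only [sq_abs] using hp 2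
    have h2 : (fun Z => (f Z - m) ^ 2) = fun Z => (f Z ^ 2 - 2 * m * f Z) + m ^ 2 := by
      funext Z
      ring
    rw [h2]
    exact (h1.sub (hi.const_mul _)).add (integrable_const _)
  have hgh : Integrable (fun Z => (f Z - m) * LR n lam Z) (gau n 2) := by
    refine Integrable.mono' (hf2.add i2) ((hc.aestronglyMeasurable.sub
      aestronglyMeasurable_const).mul i1.aestronglyMeasurable) (Eventually.of_forall fun Z => ?_)
    rw [Real.norm_eq_abs, abs_mul]
    simp only [Pi.add_apply]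
    have h1 := sq_nonneg (|f Z - m| - |LR n lam Z|)
    have h2 := sq_abs (f Z - m)
    have h3 := sq_abs (LR n lam Z)
    have h4 := mul_nonneg (abs_nonneg (f Z - m)) (abs_nonneg (LR n lam Z))
    nlinarith
  have hC0 : 0 < 1 / √(1 - n * lam ^ 2) := by
    have : 0 < √(1 - n * lam ^ 2) := Real.sqrt_pos.2 (by linarith)
    positivity
  have key := FINBx.cs hf2 i2 hgh (by positivity) hC0 hv i4
  have hE : Elm n 2 l lam = ∫ Z, (f Z - m) * LR n lam Z ∂(gau n 2) + m := by
    rw [ELR n l lam h]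
    have h1 : (fun Z => lmax (kik n 2 l 0 Z) * LR n lam Z) =
        fun Z => (f Z - m) * LR n lam Z + m * LR n lam Z := by
      funext Z
      simp only [hf]
      ring
    rw [h1, integral_add hgh (i1.const_mul _), integral_const_mul, i3, mul_one]
  rw [hE]
  linarith

end KK14
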